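import Pool.Agent.W770.PC.SphStms

/-!
# Project PC: zeros of `a(u) + b(u) √(c - u²)`
-/

set_option autoImplicit false

namespace Pool.Agent.W762.PC

open Pool.Agent.W770.PC Polynomial

theorem szero_thm : S_szero := by
  intro D a b ha hb c hc
  set Q : Polynomial ℝ := a ^ 2 - b ^ 2 * (C c - X ^ 2) with hQ
  have hev : ∀ u : ℝ, Q.eval u = (a.eval u) ^ 2 - (b.eval u) ^ 2 * (c - u ^ 2) := by
    intro u
    rw [hQ]
    simp
  by_cases hQ0 : Q = 0
  · left
    have h1 : ∀ u : ℝ, (a.eval u) ^ 2 = (b.eval u) ^ 2 * (c - u ^ 2) := by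
      intro u
      have := hev u
      rw [hQ0, eval_zero] at this
      linarith
    have h2 : ∀ u ∈ Set.Ioi (Real.sqrt c), a.eval u = 0 ∧ b.eval u = 0 := by
      intro u hu
      have hu' : Real.sqrt c < u := hu
      have h3 : c < u ^ 2 := by
        have h4 := Real.sq_sqrt hc.le
        have h5 := Real.sqrt_nonneg c
        nlinarith
      have h6 := h1 u
      have h7 : (b.eval u) ^ 2 * (c - u ^ 2) ≤ 0 :=
        mul_nonpos_of_nonneg_of_nonpos (sq_nonneg _) (by linarith)
      have h8 : a.eval u = 0 := by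
        have : (a.eval u) ^ 2 ≤ 0 := by linarith
        exact pow_eq_zero_iff (two_ne_zero) |>.1 (le_antisymm this (sq_nonneg _))
      refine ⟨h8, ?_⟩
      rw [h8] at h6
      have h9 : (b.eval u) ^ 2 * (c - u ^ 2) = 0 := by rw [← h6]; ring
      rcases mul_eq_zero.1 h9 with h | h
      · exact pow_eq_zero_iff (two_ne_zero) |>.1 h
      · linarith
    have ha0 : a = 0 := Polynomial.eq_zero_of_infinite_isRoot a
      ((Set.Ioi_infinite (Real.sqrt c)).mono fun u hu => (h2 u hu).1)
    have hb0 : b = 0 := Polynomial.eq_zero_of_infinite_isRoot b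
      ((Set.Ioi_infinite (Real.sqrt c)).mono fun u hu => (h2 u hu).2)
    intro u _
    unfold rt
    rw [ha0, hb0]
    simp
  · right
    have hsub : {u : ℝ | u ^ 2 < c ∧ rt a b c u = 0} ⊆ (Q.roots.toFinset : Set ℝ) := by
      rintro u ⟨hu, h0⟩
      rw [Finset.mem_coe, Multiset.mem_toFinset, mem_roots hQ0, IsRoot.def, hev]
      unfold rt at h0
      have h1 : Real.sqrt (c - u ^ 2) ^ 2 = c - u ^ 2 := Real.sq_sqrt (by linarith)
      have h2 : a.eval u = -(b.eval u * Real.sqrt (c - u ^ 2)) := by linarith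
      rw [h2, neg_sq, mul_pow, h1, sub_self]
    have hdeg : Q.natDegree ≤ 2 * D + 2 := by
      rw [hQ]
      refine (natDegree_sub_le _ _).trans (max_le ?_ ?_)
      · refine (natDegree_pow_le).trans ?_
        omega
      · refine (natDegree_mul_le).trans ?_
        have h1 : (b ^ 2).natDegree ≤ 2 * b.natDegree := natDegree_pow_le
        have h2 : (C c - X ^ 2 : Polynomial ℝ).natDegree ≤ 2 := by
          refine (natDegree_sub_le _ _).trans (max_le ?_ ?_)
          · simp
          · simp
        omega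
    refine (Set.encard_le_encard hsub).trans ?_
    rw [Set.encard_coe_eq_coe_finsetCard]
    have h1 : Q.roots.toFinset.card ≤ 2 * D + 2 :=
      (Multiset.toFinset_card_le _).trans ((card_roots' Q).trans hdeg)
    exact_mod_cast h1

end Pool.Agent.W762.PC
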